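import Pool.Agent.T6.H2.PT.Avg3
import Pool.Agent.T6.H2.PT.IsoP
import Pool.Agent.T6.H2.FR.Main

/-!
# Averages of `v / φ(v)` over the values of a linear polynomial with a large constant term (helper2)
-/

set_option autoImplicit false

namespace Pool.Agent.T6.H2.FR

open Finset Filter
open Pool.Agent.X32.Uni Pool.Agent.T6.H2.PT

theorem avg_far (k E : ℕ) : ∃ K₁ : ℝ, 0 < K₁ ∧ ∀ ε : ℝ, 0 < ε → ∀ K' : ℕ, ∃ X₀ : ℕ, ∀ X : ℕ, X₀ ≤ X →
    ∀ a b : ℤ, a ≠ 0 → |a| ≤ E → |b| ≤ (X : ℤ) ^ K' →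
      ∑ c ∈ (Icc (-((⌊ε * Real.log X⌋₊ : ℕ) : ℤ)) (⌊ε * Real.log X⌋₊ : ℕ)).filter (fun c => a * c + b ≠ 0),
        gg (a * c + b) ^ k ≤ K₁ * (ε * Real.log X) := by
  classical
  obtain ⟨C, hC⟩ : ∃ C : ℕ, C = 2 ^ (k + 1) := ⟨_, rfl⟩
  have hCr : (C : ℝ) = 2 ^ (k + 1) := by rw [hC]; push_cast; rfl
  obtain ⟨w₀, hmid⟩ := avg_mid C
  refine ⟨(1 + C) ^ E * 3 * (2 * Real.exp (2 * C) + 1), by positivity, fun ε hε K' => ?_⟩
  have hlogt : Tendsto (fun X : ℕ => Real.log (X : ℝ)) atTop atTop :=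
    Real.tendsto_log_atTop.comp tendsto_natCast_atTop_atTop
  have hwt : Tendsto (fun X : ℕ => ⌊ε * Real.log X⌋₊) atTop atTop :=
    tendsto_nat_floor_atTop.comp (hlogt.const_mul_atTop hε)
  have hlw : ∀ᶠ w : ℕ in atTop, 2 * (K' + 2) * C / ε ≤ Real.log w := hlogt.eventually_ge_atTop _
  have hsm : ∀ᶠ X : ℕ in atTop, ε * Real.log X ^ 1 ≤ X := Pool.Agent.X32.Uni.log_small 1 ε
  obtain ⟨X₀, hX₀⟩ := eventually_atTop.1 ((hwt.eventually hlw).and ((hwt.eventually_ge_atTop (w₀ + 2)).and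
    (hsm.and ((hlogt.eventually_ge_atTop (2 / ε)).and (eventually_ge_atTop (E + K' + 3))))))
  refine ⟨X₀, fun X hX a b ha haE hbK => ?_⟩
  obtain ⟨h1, h2, h3, h4, h5⟩ := hX₀ X hX
  obtain ⟨w, hw⟩ : ∃ w : ℕ, w = ⌊ε * Real.log X⌋₊ := ⟨_, rfl⟩
  rw [← hw] at h1 h2 ⊢
  have hX1 : 1 < X := by omega
  have hlog : 0 < Real.log X := Real.log_pos (by exact_mod_cast hX1)
  have hwl : (w : ℝ) ≤ ε * Real.log X := by
    rw [hw]
    exact Nat.floor_le (by positivity)
  have hwX : w ≤ X := by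
    rw [pow_one] at h3
    exact_mod_cast hwl.trans h3
  have hw2 : ε * Real.log X ≤ 2 * w := by
    have e1 : ε * Real.log X < w + 1 := by rw [hw]; exact Nat.lt_floor_add_one _
    have e2 : 2 ≤ ε * Real.log X := by
      rw [div_le_iff₀ hε] at h4
      linarith
    linarith
  have hw0 : (0 : ℝ) < w := by exact_mod_cast (by omega : 0 < w)
  have hlogw : 0 < Real.log w := Real.log_pos (by exact_mod_cast (by omega : 1 < w))
  have hC0 : (0 : ℝ) ≤ C := Nat.cast_nonneg C
  -- the single values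
  have hval : ∀ c ∈ (Icc (-(w : ℤ)) w).filter (fun c => a * c + b ≠ 0), gg (a * c + b) ^ k ≤
      (1 + C) ^ E * 3 * ∏ p ∈ ((Icc 1 w).filter Nat.Prime).filter
        (fun p : ℕ => ¬ (p : ℤ) ∣ a ∧ (p : ℤ) ∣ a * c + b), (1 + (C : ℝ) / p) := by
    intro c hc
    rw [mem_filter, mem_Icc] at hc
    obtain ⟨hc1, hc0⟩ := hc
    obtain ⟨v, hv⟩ : ∃ v : ℤ, v = a * c + b := ⟨_, rfl⟩
    rw [← hv] at hc0
    refine (gg_pow k (a * c + b)).trans ?_
    rw [← hCr, ← hv]
    have hvn : v.natAbs ≠ 0 := Int.natAbs_ne_zero.2 hc0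
    -- the size
    have hX1z : (1 : ℤ) ≤ X := by exact_mod_cast (by omega : 1 ≤ X)
    have hvX : |v| ≤ (X : ℤ) ^ (K' + 2) := by
      rw [hv]
      have e1 : |a * c| ≤ E * X := by
        rw [abs_mul]
        apply mul_le_mul haE _ (abs_nonneg _) (by positivity)
        have : (w : ℤ) ≤ X := by exact_mod_cast hwX
        rw [abs_le]
        omega
      have e2 := abs_add_le (a * c) b
      have e3 : (X : ℤ) ≤ (X : ℤ) ^ (K' + 1) := by
        calc (X : ℤ) = X ^ 1 := (pow_one _).symm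
          _ ≤ _ := pow_le_pow_right₀ hX1z (by omega)
      have e4 : (X : ℤ) ^ K' ≤ (X : ℤ) ^ (K' + 1) := pow_le_pow_right₀ hX1z (by omega)
      have e5 : (E : ℤ) + 1 ≤ X := by exact_mod_cast (by omega : E + 1 ≤ X)
      calc |a * c + b| ≤ |a * c| + |b| := e2
        _ ≤ E * X + X ^ K' := add_le_add e1 hbK
        _ ≤ E * X ^ (K' + 1) + X ^ (K' + 1) := by
            apply add_le_add (mul_le_mul_of_nonneg_left e3 (by positivity)) e4
        _ = (E + 1) * X ^ (K' + 1) := by ring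
        _ ≤ X * X ^ (K' + 1) := mul_le_mul_of_nonneg_right e5 (by positivity)
        _ = X ^ (K' + 2) := by ring
    obtain ⟨S1, hS1⟩ : ∃ S1, S1 = v.natAbs.primeFactors.filter (fun p : ℕ => (p : ℤ) ∣ a) := ⟨_, rfl⟩
    obtain ⟨S2, hS2⟩ : ∃ S2, S2 = (v.natAbs.primeFactors.filter (fun p : ℕ => ¬ (p : ℤ) ∣ a)).filter
      (fun p => p ≤ w) := ⟨_, rfl⟩
    obtain ⟨S3, hS3⟩ : ∃ S3, S3 = (v.natAbs.primeFactors.filter (fun p : ℕ => ¬ (p : ℤ) ∣ a)).filter
      (fun p => ¬ p ≤ w) := ⟨_, rfl⟩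
    have hsplit : ∏ p ∈ v.natAbs.primeFactors, (1 + (C : ℝ) / p) =
        (∏ p ∈ S1, (1 + (C : ℝ) / p)) * ((∏ p ∈ S2, (1 + (C : ℝ) / p)) * ∏ p ∈ S3, (1 + (C : ℝ) / p)) := by
      rw [hS1, hS2, hS3, prod_filter_mul_prod_filter_not, prod_filter_mul_prod_filter_not]
    have hone : ∀ p : ℕ, 1 ≤ 1 + (C : ℝ) / p := fun p => by
      have : 0 ≤ (C : ℝ) / p := by positivity
      linarith
    have b1 : ∏ p ∈ S1, (1 + (C : ℝ) / p) ≤ (1 + C) ^ E := by
      have e1 : S1 ⊆ Icc 1 E := by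
        intro p hp
        rw [hS1, mem_filter] at hp
        have hpp := Nat.prime_of_mem_primeFactors hp.1
        rw [mem_Icc]
        refine ⟨hpp.one_le, ?_⟩
        have := Int.natAbs_dvd_natAbs.2 hp.2
        rw [Int.natAbs_natCast] at this
        have e3 := Nat.le_of_dvd (Int.natAbs_pos.2 ha) this
        have e4 : a.natAbs ≤ E := by
          zify
          exact haE
        omega
      have e2 : S1.card ≤ E := by
        have := card_le_card e1
        simpa using this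
      calc ∏ p ∈ S1, (1 + (C : ℝ) / p) ≤ ∏ _p ∈ S1, (1 + (C : ℝ)) := by
            apply Finset.prod_le_prod
            · intro p _
              positivity
            · intro p hp
              have hp1 : (1 : ℝ) ≤ p := by
                have := (mem_Icc.1 (e1 hp)).1
                exact_mod_cast this
              have : (C : ℝ) / p ≤ C := div_le_self hC0 hp1
              linarith
        _ = (1 + C) ^ S1.card := by rw [prod_const]
        _ ≤ (1 + C) ^ E := pow_le_pow_right₀ (by linarith) e2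
    have b2 : ∏ p ∈ S2, (1 + (C : ℝ) / p) ≤ ∏ p ∈ ((Icc 1 w).filter Nat.Prime).filter
        (fun p : ℕ => ¬ (p : ℤ) ∣ a ∧ (p : ℤ) ∣ v), (1 + (C : ℝ) / p) := by
      have e1 : S2 ⊆ ((Icc 1 w).filter Nat.Prime).filter (fun p : ℕ => ¬ (p : ℤ) ∣ a ∧ (p : ℤ) ∣ v) := by
        intro p hp
        rw [hS2, mem_filter, mem_filter] at hp
        have hpp := Nat.prime_of_mem_primeFactors hp.1.1
        rw [mem_filter, mem_filter, mem_Icc]
        exact ⟨⟨⟨hpp.one_le, hp.2⟩, hpp⟩, hp.1.2, Int.natCast_dvd.2 (Nat.dvd_of_mem_primeFactors hp.1.1)⟩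
      rw [← prod_sdiff e1]
      apply le_mul_of_one_le_left
      · exact prod_nonneg fun p _ => by have := hone p; linarith
      · exact one_le_prod _ _ fun p _ => hone p
    have b3 : ∏ p ∈ S3, (1 + (C : ℝ) / p) ≤ 3 := by
      have e1 : (w : ℝ) ^ S3.card ≤ (X : ℝ) ^ (K' + 2) := by
        have e2 : ∏ p ∈ S3, p ∣ v.natAbs := by
          apply Finset.prod_primes_dvd v.natAbs
          · intro p hp
            rw [hS3, mem_filter, mem_filter] at hp
            exact (Nat.prime_of_mem_primeFactors hp.1.1).prime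
          · intro p hp
            rw [hS3, mem_filter, mem_filter] at hp
            exact Nat.dvd_of_mem_primeFactors hp.1.1
        have e3 := Nat.le_of_dvd (Nat.pos_of_ne_zero hvn) e2
        have e4 : w ^ S3.card ≤ ∏ p ∈ S3, p := by
          calc w ^ S3.card = ∏ _p ∈ S3, w := by rw [prod_const]
            _ ≤ ∏ p ∈ S3, p := by
              apply Finset.prod_le_prod'
              intro p hp
              rw [hS3, mem_filter] at hp
              omega
        have e5 : v.natAbs ≤ X ^ (K' + 2) := by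
          zify
          exact hvX
        exact_mod_cast e4.trans (e3.trans e5)
      have e6 : (S3.card : ℝ) * Real.log w ≤ (K' + 2) * Real.log X := by
        have := Real.log_le_log (by positivity) e1
        rw [Real.log_pow, Real.log_pow] at this
        push_cast at this
        exact this
      have e7 : (C : ℝ) * S3.card / w ≤ 1 := by
        rw [div_le_one hw0]
        have e8 : 2 * (K' + 2) * C ≤ ε * Real.log w := by
          rw [div_le_iff₀ hε] at h1
          linarith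
        -- C card log w ≤ 2 C log X ≤ (ε log w / 2) log X ≤ w log w
        have e9 : (C : ℝ) * S3.card * Real.log w ≤ w * Real.log w := by
          calc (C : ℝ) * S3.card * Real.log w = C * (S3.card * Real.log w) := by ring
            _ ≤ C * ((K' + 2) * Real.log X) := by gcongr
            _ = (2 * (K' + 2) * C) * Real.log X / 2 := by ring
            _ ≤ (ε * Real.log w) * Real.log X / 2 := by gcongr
            _ = (ε * Real.log X) / 2 * Real.log w := by ring
            _ ≤ (2 * w) / 2 * Real.log w := by gcongr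
            _ = w * Real.log w := by ring
        exact le_of_mul_le_mul_right e9 hlogw
      calc ∏ p ∈ S3, (1 + (C : ℝ) / p) ≤ ∏ _p ∈ S3, Real.exp ((C : ℝ) / w) := by
            apply Finset.prod_le_prod
            · intro p _
              positivity
            · intro p hp
              rw [hS3, mem_filter] at hp
              have e10 : (w : ℝ) ≤ p := by exact_mod_cast (by omega : w ≤ p)
              have e11 : (C : ℝ) / p ≤ C / w := div_le_div_of_nonneg_left hC0 hw0 e10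
              have e12 := Real.add_one_le_exp ((C : ℝ) / w)
              linarith
        _ = Real.exp (S3.card * ((C : ℝ) / w)) := by
            rw [prod_const, ← Real.exp_nat_mul]
        _ ≤ Real.exp 1 := by
            apply Real.exp_le_exp.2
            calc (S3.card : ℝ) * ((C : ℝ) / w) = (C : ℝ) * S3.card / w := by ring
              _ ≤ 1 := e7
        _ ≤ 3 := by
            have := Real.exp_one_lt_d9
            linarith
    rw [hsplit]
    have n2 : 0 ≤ ∏ p ∈ S2, (1 + (C : ℝ) / p) := prod_nonneg fun p _ => by have := hone p; linarith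
    have n3 : 0 ≤ ∏ p ∈ S3, (1 + (C : ℝ) / p) := prod_nonneg fun p _ => by have := hone p; linarith
    calc (∏ p ∈ S1, (1 + (C : ℝ) / p)) * ((∏ p ∈ S2, (1 + (C : ℝ) / p)) * ∏ p ∈ S3, (1 + (C : ℝ) / p))
        ≤ (1 + C) ^ E * ((∏ p ∈ ((Icc 1 w).filter Nat.Prime).filter
          (fun p : ℕ => ¬ (p : ℤ) ∣ a ∧ (p : ℤ) ∣ v), (1 + (C : ℝ) / p)) * 3) := by
          gcongr
      _ = _ := by ring
  refine (sum_le_sum hval).trans ?_
  rw [← mul_sum]
  have hs := hmid w (by omega) a b ha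
  have hsub : ∑ c ∈ (Icc (-(w : ℤ)) w).filter (fun c => a * c + b ≠ 0), ∏ p ∈ ((Icc 1 w).filter Nat.Prime).filter
        (fun p : ℕ => ¬ (p : ℤ) ∣ a ∧ (p : ℤ) ∣ a * c + b), (1 + (C : ℝ) / p) ≤
      ∑ c ∈ Icc (-(w : ℤ)) w, ∏ p ∈ ((Icc 1 w).filter Nat.Prime).filter
        (fun p : ℕ => ¬ (p : ℤ) ∣ a ∧ (p : ℤ) ∣ a * c + b), (1 + (C : ℝ) / p) :=
    sum_le_sum_of_subset_of_nonneg (filter_subset _ _) fun c _ _ => prod_nonneg fun p _ => by positivity
  calc (1 + (C : ℝ)) ^ E * 3 * ∑ c ∈ (Icc (-(w : ℤ)) w).filter (fun c => a * c + b ≠ 0),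
        ∏ p ∈ ((Icc 1 w).filter Nat.Prime).filter
        (fun p : ℕ => ¬ (p : ℤ) ∣ a ∧ (p : ℤ) ∣ a * c + b), (1 + (C : ℝ) / p)
      ≤ (1 + (C : ℝ)) ^ E * 3 * ((2 * Real.exp (2 * C) + 1) * w) := by
        apply mul_le_mul_of_nonneg_left (hsub.trans hs) (by positivity)
    _ ≤ (1 + (C : ℝ)) ^ E * 3 * ((2 * Real.exp (2 * C) + 1) * (ε * Real.log X)) := by gcongr
    _ = _ := by ring

end Pool.Agent.T6.H2.FR
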