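import Pool.Agent.T6.H2.FR.Lin
import Pool.Agent.X32.Uni.Tup

/-!
# Systems of linear forms with far members: a prime, a `P₂`, almost primes, isolation, monochromatic progressions (helper2)

The forms `a_l n + b_l`, `n ≤ X`, of which two (a prime and a `P₂`) have constant terms `O(X)`, and the other ones
constant terms up to `X ^ A'`, `A'` arbitrary. Adapted from `X32/Uni/Tup.lean` and `T6/H2/PT/IsoP.lean`.
-/

set_option autoImplicit false

namespace Pool.Agent.T6.H2.FR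

open Finset Filter
open scoped Polynomial
open Pool.Agent.X32.Uni Pool.Agent.T6.H2.PT

variable {k : ℕ}

/-- the systems: `E` bounds the slopes of the two distinguished forms, `K` all the slopes, the constant terms of the
distinguished forms are at most `K X`, all the constant terms are at most `X ^ A'` -/
structure SysF (k E K A' X : ℕ) (a b : Fin k → ℤ) (i j : Fin k) : Prop where
  a0 : ∀ l, a l ≠ 0
  aE : (a i).natAbs ≤ E
  aE' : (a j).natAbs ≤ E
  aK : ∀ l, |a l| ≤ K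
  bi : |b i| ≤ K * (X : ℤ)
  bj : |b j| ≤ K * (X : ℤ)
  bX : ∀ l, |b l| ≤ (X : ℤ) ^ A'
  adm : AdmL a b
  ne : (a j, b j) ≠ (a i, b i)
  ne' : (a j, b j) ≠ (- a i, - b i)

open Classical in
/-- the good arguments -/
noncomputable def GoodF (a b : Fin k → ℤ) (i j : Fin k) (t T X A B : ℕ) : Finset ℕ :=
  (Ioc A B).filter (fun x : ℕ => (a i * (x : ℤ) + b i).natAbs.Prime ∧
    Almost 2 ((X : ℝ) ^ (1 / 9 : ℝ)) (a j * (x : ℤ) + b j) ∧
    ∀ l, Almost T ((X : ℝ) ^ (1 / (t : ℝ))) (a l * (x : ℤ) + b l))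

theorem SysF.sys {E K A' X : ℕ} {a b : Fin k → ℤ} {i j : Fin k} (S : SysF k E K A' X a b i j) :
    SysR k E (2 * K) X (lf a b) i j where
  deg l := by rw [lf_deg a b l (S.a0 l)]
  sum := by
    simp only [lf_deg a b _ (S.a0 _)]
    simp
  loc := loc_lf S.adm
  sizei x h0 h1 := by
    rw [lf_eval]
    have h2 : |a i * x| ≤ K * X := by
      rw [abs_mul, abs_of_nonneg h0]
      exact mul_le_mul (S.aK i) h1 h0 (by positivity)
    have h3 := S.bi
    have h4 := abs_add_le (a i * x) (b i)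
    push_cast
    linarith
  sizej x h0 h1 := by
    rw [lf_eval]
    have h2 : |a j * x| ≤ K * X := by
      rw [abs_mul, abs_of_nonneg h0]
      exact mul_le_mul (S.aK j) h1 h0 (by positivity)
    have h3 := S.bj
    have h4 := abs_add_le (a j * x) (b j)
    push_cast
    linarith
  di := lf_deg a b i (S.a0 i)
  dj := lf_deg a b j (S.a0 j)
  ei := by rw [lf_coeff1]; exact S.aE
  ej := by rw [lf_coeff1]; exact S.aE'
  ne h := by
    apply S.ne
    have h1 := congrArg (fun g : ℤ[X] => g.coeff 1) h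
    have h2 := congrArg (fun g : ℤ[X] => g.coeff 0) h
    simp only [lf_coeff1, lf_coeff0] at h1 h2
    rw [h1, h2]
  ne' h := by
    apply S.ne'
    have h1 := congrArg (fun g : ℤ[X] => g.coeff 1) h
    have h2 := congrArg (fun g : ℤ[X] => g.coeff 0) h
    simp only [Polynomial.coeff_neg, lf_coeff1, lf_coeff0] at h1 h2
    rw [h1, h2]

/-- the number of the prime factors -/
theorem GoodR_sub {E K A' X t : ℕ} {a b : Fin k → ℤ} {i j : Fin k} (S : SysF k E K A' X a b i j) (ht : 1 ≤ t)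
    (hX : K + 2 ≤ X) (A B : ℕ) (hB : B ≤ X) :
    GoodR (lf a b) i j t X A B ⊆ GoodF a b i j t ((A' + 2) * t) X A B := by
  classical
  intro x hx
  unfold GoodR at hx
  unfold GoodF
  rw [mem_filter] at hx ⊢
  simp only [lf_eval] at hx
  obtain ⟨hxI, h1, h2, h3⟩ := hx
  refine ⟨hxI, h1, h2, fun l => ⟨(h3 l).1, ?_, (h3 l).2⟩⟩
  have hX1 : (1 : ℝ) < X := by exact_mod_cast (by omega : 1 < X)
  have hX0 : (0 : ℝ) < X := by linarith
  have ht0 : (0 : ℝ) < t := by exact_mod_cast ht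
  have hX1z : (1 : ℤ) ≤ X := by exact_mod_cast (by omega : 1 ≤ X)
  have hxX : (x : ℤ) ≤ X := by
    have := (mem_Ioc.1 hxI).2
    exact_mod_cast this.trans hB
  have hv : |a l * (x : ℤ) + b l| ≤ (X : ℤ) ^ (A' + 2) := by
    have e1 : |a l * (x : ℤ)| ≤ K * X := by
      rw [abs_mul, Nat.abs_cast]
      exact mul_le_mul (S.aK l) hxX (by positivity) (by positivity)
    have e3 : (X : ℤ) ≤ (X : ℤ) ^ (A' + 1) := by
      calc (X : ℤ) = X ^ 1 := (pow_one _).symm
        _ ≤ _ := pow_le_pow_right₀ hX1z (by omega)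
    have e4 : (X : ℤ) ^ A' ≤ (X : ℤ) ^ (A' + 1) := pow_le_pow_right₀ hX1z (by omega)
    have e5 : (K : ℤ) + 1 ≤ X := by exact_mod_cast (by omega : K + 1 ≤ X)
    calc |a l * (x : ℤ) + b l| ≤ |a l * (x : ℤ)| + |b l| := abs_add_le _ _
      _ ≤ K * X + X ^ A' := add_le_add e1 (S.bX l)
      _ ≤ K * X ^ (A' + 1) + X ^ (A' + 1) := add_le_add (mul_le_mul_of_nonneg_left e3 (by positivity)) e4
      _ = (K + 1) * X ^ (A' + 1) := by ring
      _ ≤ X * X ^ (A' + 1) := mul_le_mul_of_nonneg_right e5 (by positivity)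
      _ = X ^ (A' + 2) := by ring
  refine Pool.Agent.Y840.CT.length_le (y := (X : ℝ) ^ (1 / (t : ℝ))) (B := (X : ℝ) ^ (A' + 2))
    ?_ ?_ ?_ ?_ ?_
  · rw [Int.natAbs_ne_zero]
    intro h0
    have := (h3 l).1
    rw [h0] at this
    simp at this
  · exact Real.one_le_rpow hX1.le (by positivity)
  · have h4 : (((a l * (x : ℤ) + b l).natAbs : ℕ) : ℤ) ≤ ((X ^ (A' + 2) : ℕ) : ℤ) := by
      rw [← Int.abs_eq_natAbs]
      push_cast
      exact hv
    have h5 : (a l * (x : ℤ) + b l).natAbs ≤ X ^ (A' + 2) := by exact_mod_cast h4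
    exact_mod_cast h5
  · have h4 : ((X : ℝ) ^ (1 / (t : ℝ))) ^ ((A' + 2) * t) = (X : ℝ) ^ (A' + 2) := by
      rw [mul_comm, pow_mul]
      congr 1
      rw [← Real.rpow_natCast, ← Real.rpow_mul hX0.le, one_div, inv_mul_cancel₀ ht0.ne', Real.rpow_one]
    rw [pow_succ ((X : ℝ) ^ (1 / (t : ℝ))), h4]
    have h5 : 1 < (X : ℝ) ^ (1 / (t : ℝ)) := Real.one_lt_rpow hX1 (by positivity)
    have h6 : 0 < (X : ℝ) ^ (A' + 2) := by positivity
    nlinarith
  · intro q hq hd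
    exact (h3 l).2 q hq (Int.natCast_dvd.2 hd)

/-- coverings for systems of linear forms, uniformly -/
theorem farP (k E : ℕ) (hk : 1 ≤ k) : ∃ t : ℕ, 1 ≤ t ∧ ∃ κ : ℝ, 0 < κ ∧ ∀ (K A' s r : ℕ) (θ δ : ℝ), 1 ≤ s → 0 < θ → 0 < δ →
    ∃ c X₀ : ℕ, ∀ X : ℕ, X₀ ≤ X → ∀ (a b : Fin k → ℤ) (i j : Fin k), SysF k E K A' X a b i j →
      κ / Real.log X ^ k ≤ VL a b X ∧ ∀ A B : ℕ, B ≤ X → θ * X ≤ (B : ℝ) - A →
        κ * ((B : ℝ) - A) * VL a b X ≤ ((GoodF a b i j t ((A' + 2) * t) X A B).card : ℝ) ∧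
        ∀ χ : ℕ → Fin r, ∃ P : Finset (ℕ × ℕ),
          (∀ z ∈ P, 1 ≤ z.2 ∧ (z.2 : ℝ) ≤ Real.log X ^ c ∧
            ∀ m < s, z.1 + m * z.2 ∈ GoodF a b i j t ((A' + 2) * t) X A B ∧ χ (z.1 + m * z.2) = χ z.1) ∧
          (P : Set (ℕ × ℕ)).PairwiseDisjoint (apSet s) ∧
          (((GoodF a b i j t ((A' + 2) * t) X A B \ P.biUnion (apSet s)).card : ℕ) : ℝ) ≤ δ * ((B : ℝ) - A) * VL a b X := by
  classical
  obtain ⟨t, ht, κ, hκ, H⟩ := mainR k E hk
  refine ⟨t, ht, κ, hκ, fun K A' s r θ δ hs hθ hδ => ?_⟩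
  obtain ⟨X₁, h1⟩ := H θ hθ (2 * K)
  obtain ⟨c, X₂, h2⟩ := prog_dense k (max t 2) (le_max_right _ _) s θ (δ / (r + 1)) κ hθ (by positivity) hκ
  refine ⟨c, max (max X₁ X₂) (K + 3), fun X hX a b i j S => ?_⟩
  have hX1 : X₁ ≤ X := (le_max_left _ _).trans ((le_max_left _ _).trans hX)
  have hX2 : X₂ ≤ X := (le_max_right _ _).trans ((le_max_left _ _).trans hX)
  have hXK : K + 3 ≤ X := (le_max_right _ _).trans hX
  have hX3 : 3 ≤ X := by omega
  have hX0 : (0 : ℝ) < X := by exact_mod_cast (by omega : 0 < X)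
  have hlog : 0 < Real.log X := Real.log_pos (by exact_mod_cast (by omega : 1 < X))
  obtain ⟨h3, h4'⟩ := h1 X hX1 k (lf a b) i j S.sys
  rw [V_lf] at h3 h4'
  have h4 : ∀ A B : ℕ, B ≤ X → θ * X ≤ (B : ℝ) - A →
      κ * ((B : ℝ) - A) * VL a b X ≤ ((GoodF a b i j t ((A' + 2) * t) X A B).card : ℝ) := by
    intro A B hB hAB
    refine (h4' A B hB hAB).trans ?_
    exact_mod_cast card_le_card (GoodR_sub S ht (by omega) A B hB)
  have hV0 : 0 < VL a b X := lt_of_lt_of_le (by positivity) h3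
  refine ⟨h3, fun A B hB hAB => ⟨h4 A B hB hAB, fun χ => ?_⟩⟩
  have hBA0 : 0 < (B : ℝ) - A := lt_of_lt_of_le (by positivity) hAB
  have hdeg : ∀ l, (lf a b l).natDegree = 1 := fun l => lf_deg _ _ l (S.a0 l)
  obtain ⟨P, p1, p2, p3⟩ := part_col s r hs (Real.log X ^ c) (δ / (r + 1) * ((B : ℝ) - A) * VL a b X)
    (by positivity) (GoodF a b i j t ((A' + 2) * t) X A B) (by
      intro T hT hTc
      refine h2 X hX2 k (lf a b) (by
        simp only [hdeg]
        simp) (loc_lf S.adm) (by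
        rw [V_lf]
        exact h3) A B hB hAB T ?_ ?_ (by
        rw [V_lf]
        exact hTc)
      · exact hT.trans (filter_subset _ _)
      · intro x hx _ l q hq hd
        have h5 := hT hx
        unfold GoodF at h5
        rw [mem_filter] at h5
        rw [lf_eval] at hd
        refine lt_of_le_of_lt ?_ ((h5.2.2.2 l).2.2 q hq hd)
        apply Real.rpow_le_rpow_of_exponent_le (by exact_mod_cast (by omega : 1 ≤ X))
        have ht0 : (0 : ℝ) < t := by exact_mod_cast ht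
        apply one_div_le_one_div_of_le ht0
        exact_mod_cast le_max_left t 2) χ
  refine ⟨P, p1, p2, p3.le.trans ?_⟩
  have h6 : (r : ℝ) * (δ / (r + 1) * ((B : ℝ) - A) * VL a b X) =
      (r / (r + 1)) * (δ * ((B : ℝ) - A) * VL a b X) := by
    field_simp
  rw [h6]
  have h7 : (r : ℝ) / (r + 1) ≤ 1 := by
    rw [div_le_one (by positivity)]
    linarith
  exact mul_le_of_le_one_left (by positivity) h7


open Classical in
/-- the good arguments which are isolated -/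
noncomputable def GoodFI (a b : Fin k → ℤ) (i j : Fin k) (t T X : ℕ) (w y : ℝ) (A B : ℕ) : Finset ℕ :=
  (GoodF a b i j t T X A B).filter (fun n => IsoAt a b w y n)

/-- **Isolated Chen theorem for systems of linear forms, uniformly.** -/
theorem farI (k E : ℕ) (hk : 1 ≤ k) : ∃ t : ℕ, 1 ≤ t ∧ ∃ κ : ℝ, 0 < κ ∧ ∀ (β : ℝ) (K : ℕ), 0 < β → ∃ ε : ℝ, 0 < ε ∧
    ∀ (A' s r : ℕ) (θ δ : ℝ), 1 ≤ s → 0 < θ → 0 < δ →
    ∃ c X₀ : ℕ, ∀ X : ℕ, X₀ ≤ X → ∀ (a b : Fin k → ℤ) (i j : Fin k), SysF k E K A' X a b i j →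
      κ / Real.log X ^ k ≤ VL a b X ∧ ∀ A B : ℕ, B ≤ X → θ * X ≤ (B : ℝ) - A →
        κ * ((B : ℝ) - A) * VL a b X ≤
          ((GoodFI a b i j t ((A' + 2) * t) X (ε * Real.log X) ((X : ℝ) ^ β) A B).card : ℝ) ∧
        ∀ χ : ℕ → Fin r, ∃ P : Finset (ℕ × ℕ),
          (∀ z ∈ P, 1 ≤ z.2 ∧ (z.2 : ℝ) ≤ Real.log X ^ c ∧
            ∀ m < s, z.1 + m * z.2 ∈ GoodFI a b i j t ((A' + 2) * t) X (ε * Real.log X) ((X : ℝ) ^ β) A B ∧
              χ (z.1 + m * z.2) = χ z.1) ∧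
          (P : Set (ℕ × ℕ)).PairwiseDisjoint (apSet s) ∧
          (((GoodFI a b i j t ((A' + 2) * t) X (ε * Real.log X) ((X : ℝ) ^ β) A B \ P.biUnion (apSet s)).card : ℕ) : ℝ) ≤
            δ * ((B : ℝ) - A) * VL a b X := by
  classical
  obtain ⟨t, ht, κ, hκ, HM⟩ := farP k E hk
  refine ⟨t, ht, κ / 2, by positivity, fun β K hβ => ?_⟩
  have ht0 : (0 : ℝ) < t := by exact_mod_cast ht
  obtain ⟨β', hβ'⟩ : ∃ β' : ℝ, β' = min β (1 / (t : ℝ)) := ⟨_, rfl⟩
  have hβ'0 : 0 < β' := by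
    rw [hβ']
    exact lt_min hβ (by positivity)
  obtain ⟨K₁, hK₁, HI⟩ := iso_far k K hk β' hβ'0
  have hk0 : (0 : ℝ) < k := by exact_mod_cast hk
  obtain ⟨ε, hε⟩ : ∃ ε : ℝ, ε = κ / (2 * K₁ * k) := ⟨_, rfl⟩
  have hε0 : 0 < ε := by rw [hε]; positivity
  have hεK : k * (K₁ * ε) = κ / 2 := by rw [hε]; field_simp
  refine ⟨ε, hε0, fun A' s r θ δ hs hθ hδ => ?_⟩
  obtain ⟨X₁, HI⟩ := HI ε hε0 A'
  obtain ⟨c, X₀, HM⟩ := HM K A' s (r * 2) θ δ hs hθ hδ
  have h4 : ∀ᶠ X : ℕ in atTop, 1 / θ ≤ (X : ℝ) ^ (1 / 2 : ℝ) :=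
    ((tendsto_rpow_atTop (by norm_num : (0 : ℝ) < 1 / 2)).comp tendsto_natCast_atTop_atTop).eventually_ge_atTop _
  have h5 : ∀ᶠ X : ℕ in atTop, (K : ℝ) ≤ (X : ℝ) ^ β' :=
    ((tendsto_rpow_atTop hβ'0).comp tendsto_natCast_atTop_atTop).eventually_ge_atTop _
  obtain ⟨X₄, h4⟩ := eventually_atTop.1 (h4.and h5)
  refine ⟨c, X₀ + X₁ + X₄ + 3, fun X hX a b i j SS => ?_⟩
  have hX1 : (1 : ℝ) ≤ X := by exact_mod_cast (by omega : 1 ≤ X)
  have hX0 : (0 : ℝ) < X := by linarith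
  have hlog : 0 < Real.log X := Real.log_pos (by exact_mod_cast (by omega : 1 < X))
  have hlogk : 0 < Real.log X ^ k := pow_pos hlog k
  obtain ⟨hVlow, HM⟩ := HM X (by omega) a b i j SS
  refine ⟨?_, fun A B hB hAB => ?_⟩
  · refine le_trans ?_ hVlow
    apply div_le_div_of_nonneg_right _ hlogk.le
    linarith
  have hBA0 : 0 ≤ (B : ℝ) - A := le_trans (by positivity) hAB
  have hhalf : (X : ℝ) ^ (1 / 2 : ℝ) ≤ (B : ℝ) - A := by
    refine le_trans ?_ hAB
    have e1 := (h4 X (by omega)).1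
    have e2 : (X : ℝ) ^ (1 / 2 : ℝ) * (X : ℝ) ^ (1 / 2 : ℝ) = X := by
      rw [← Real.rpow_add hX0]
      norm_num
    have e3 : 0 ≤ (X : ℝ) ^ (1 / 2 : ℝ) := by positivity
    rw [div_le_iff₀ hθ] at e1
    calc (X : ℝ) ^ (1 / 2 : ℝ) = (X : ℝ) ^ (1 / 2 : ℝ) * 1 := (mul_one _).symm
      _ ≤ (X : ℝ) ^ (1 / 2 : ℝ) * ((X : ℝ) ^ (1 / 2 : ℝ) * θ) := by gcongr
      _ = θ * X := by rw [← mul_assoc, e2]; ring
  obtain ⟨hlow, hcov⟩ := HM A B hB hAB
  obtain ⟨y, hy⟩ : ∃ y : ℝ, y = (X : ℝ) ^ β := ⟨_, rfl⟩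
  obtain ⟨w, hw⟩ : ∃ w : ℝ, w = ε * Real.log X := ⟨_, rfl⟩
  have hw0 : 0 ≤ w := by rw [hw]; positivity
  rw [← hy, ← hw]
  have hy' : (X : ℝ) ^ β' ≤ y := by
    rw [hy]
    apply Real.rpow_le_rpow_of_exponent_le hX1
    rw [hβ']
    exact min_le_left _ _
  have hy'' : (X : ℝ) ^ β' ≤ (X : ℝ) ^ (1 / (t : ℝ)) := by
    apply Real.rpow_le_rpow_of_exponent_le hX1
    rw [hβ']
    exact min_le_right _ _
  have hGsub : GoodFI a b i j t ((A' + 2) * t) X w y A B ⊆ GoodF a b i j t ((A' + 2) * t) X A B := filter_subset _ _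
  -- the elements which are not isolated
  have hbad : (((GoodF a b i j t ((A' + 2) * t) X A B \ GoodFI a b i j t ((A' + 2) * t) X w y A B).card : ℕ) : ℝ) ≤
      κ / 2 * ((B : ℝ) - A) * VL a b X := by
    obtain ⟨N, hN⟩ : ∃ N : ℕ, N = ⌊w⌋₊ := ⟨_, rfl⟩
    have e2 : GoodF a b i j t ((A' + 2) * t) X A B \ GoodFI a b i j t ((A' + 2) * t) X w y A B ⊆
        (univ : Finset (Fin k)).biUnion (fun l =>
          ((Icc (-(N : ℤ)) N).filter (fun c => ∀ u, a u * (b l + c) - a l * b u ≠ 0)).biUnion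
          (fun c => RL (Fin.cons (a l) a : Fin (k + 1) → ℤ) (Fin.cons (b l + c) b : Fin (k + 1) → ℤ)
            ((X : ℝ) ^ β') A B)) := by
      intro n hn
      rw [Finset.mem_sdiff] at hn
      obtain ⟨hn1, hn2⟩ := hn
      have hn3 : ¬ IsoAt a b w y n := fun hcon => hn2 (mem_filter.2 ⟨hn1, hcon⟩)
      unfold IsoAt at hn3
      push Not at hn3
      obtain ⟨l, z, hz1, hz2, hz3⟩ := hn3
      unfold GoodF at hn1
      rw [mem_filter] at hn1
      have hval : ∀ u, ∀ q : ℕ, q.Prime → (q : ℝ) ≤ (X : ℝ) ^ β' → ¬ (q : ℤ) ∣ a u * (n : ℤ) + b u := by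
        intro u q hq hqy hd
        have e3 := (hn1.2.2.2 u).2.2 q hq hd
        linarith
      have hzq : ∀ q : ℕ, q.Prime → (q : ℝ) ≤ (X : ℝ) ^ β' → ¬ (q : ℤ) ∣ z := by
        intro q hq hqy hd
        exact hz3 q hq (hqy.trans hy') hd
      rw [mem_biUnion]
      refine ⟨l, mem_univ _, ?_⟩
      rw [mem_biUnion]
      refine ⟨z - (a l * (n : ℤ) + b l), ?_, ?_⟩
      · rw [mem_filter, mem_Icc]
        have e3 : ((z - (a l * (n : ℤ) + b l)).natAbs : ℝ) ≤ w := by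
          have : (((z - (a l * (n : ℤ) + b l)).natAbs : ℕ) : ℝ) = |(z : ℝ) - ((a l * (n : ℤ) + b l : ℤ) : ℝ)| := by
            rw [Nat.cast_natAbs]
            push_cast
            rfl
          rw [this]
          exact hz1
        have e4 : (z - (a l * (n : ℤ) + b l)).natAbs ≤ N := by
          rw [hN]
          exact Nat.le_floor e3
        refine ⟨⟨by omega, by omega⟩, fun u he => ?_⟩
        have e5 : a u * z = a l * (a u * (n : ℤ) + b u) := by
          have : b l + (z - (a l * (n : ℤ) + b l)) = z - a l * n := by ring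
          rw [this] at he
          linarith
        rcases prop_eq (h4 X (by omega)).2 (SS.a0 u) (SS.a0 l) (SS.aK u) (SS.aK l) e5 hzq (hval u) with h | h
        · exact (hz2 u).1 h
        · exact (hz2 u).2 h
      · unfold RL
        rw [mem_filter]
        refine ⟨hn1.1, fun u => ?_⟩
        refine Fin.cases ?_ (fun u => ?_) u
        · intro p hp hpy hd
          rw [Fin.cons_zero, Fin.cons_zero] at hd
          have e3 : a l * (n : ℤ) + (b l + (z - (a l * (n : ℤ) + b l))) = z := by ring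
          rw [e3] at hd
          exact hzq p hp hpy hd
        · intro p hp hpy hd
          rw [Fin.cons_succ, Fin.cons_succ] at hd
          exact hval u p hp hpy hd
    have e3 : (((GoodF a b i j t ((A' + 2) * t) X A B \ GoodFI a b i j t ((A' + 2) * t) X w y A B).card : ℕ) : ℝ) ≤
        ∑ l : Fin k, ∑ c ∈ (Icc (-(N : ℤ)) N).filter (fun c => ∀ u, a u * (b l + c) - a l * b u ≠ 0),
          ((RL (Fin.cons (a l) a : Fin (k + 1) → ℤ) (Fin.cons (b l + c) b : Fin (k + 1) → ℤ)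
            ((X : ℝ) ^ β') A B).card : ℝ) := by
      have e4 := (card_le_card e2).trans card_biUnion_le
      have e5 : ∑ l : Fin k, (((Icc (-(N : ℤ)) N).filter (fun c => ∀ u, a u * (b l + c) - a l * b u ≠ 0)).biUnion
          (fun c => RL (Fin.cons (a l) a : Fin (k + 1) → ℤ) (Fin.cons (b l + c) b : Fin (k + 1) → ℤ)
            ((X : ℝ) ^ β') A B)).card ≤
          ∑ l : Fin k, ∑ c ∈ (Icc (-(N : ℤ)) N).filter (fun c => ∀ u, a u * (b l + c) - a l * b u ≠ 0),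
          (RL (Fin.cons (a l) a : Fin (k + 1) → ℤ) (Fin.cons (b l + c) b : Fin (k + 1) → ℤ)
            ((X : ℝ) ^ β') A B).card := sum_le_sum fun l _ => card_biUnion_le
      exact_mod_cast e4.trans e5
    refine e3.trans ?_
    calc ∑ l : Fin k, ∑ c ∈ (Icc (-(N : ℤ)) N).filter (fun c => ∀ u, a u * (b l + c) - a l * b u ≠ 0),
          ((RL (Fin.cons (a l) a : Fin (k + 1) → ℤ) (Fin.cons (b l + c) b : Fin (k + 1) → ℤ)
            ((X : ℝ) ^ β') A B).card : ℝ)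
        ≤ ∑ _l : Fin k, K₁ * ε * ((B : ℝ) - A) * VL a b X := by
          apply sum_le_sum
          intro l _
          have e6 := HI X (by omega) a b (a l) (b l) SS.a0 SS.aK SS.bX (SS.a0 l) (SS.aK l) (SS.bX l) A B hB hhalf
          rw [← hw, ← hN] at e6
          exact e6
      _ = k * (K₁ * ε) * ((B : ℝ) - A) * VL a b X := by simp; ring
      _ = κ / 2 * ((B : ℝ) - A) * VL a b X := by rw [hεK]
  refine ⟨?_, ?_⟩
  · have e1 : (((GoodF a b i j t ((A' + 2) * t) X A B).card : ℕ) : ℝ) =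
        (GoodF a b i j t ((A' + 2) * t) X A B \ GoodFI a b i j t ((A' + 2) * t) X w y A B).card + (GoodFI a b i j t ((A' + 2) * t) X w y A B).card := by
      exact_mod_cast (card_sdiff_add_card_eq_card hGsub).symm
    have e2 : κ * ((B : ℝ) - A) * VL a b X =
        κ / 2 * ((B : ℝ) - A) * VL a b X + κ / 2 * ((B : ℝ) - A) * VL a b X := by ring
    linarith
  · intro χ
    obtain ⟨P, p1, p2, p3⟩ := hcov (fun n => finProdFinEquiv
      (χ n, if n ∈ GoodFI a b i j t ((A' + 2) * t) X w y A B then (1 : Fin 2) else 0))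
    have hcol : ∀ n m : ℕ, finProdFinEquiv (χ n, if n ∈ GoodFI a b i j t ((A' + 2) * t) X w y A B then (1 : Fin 2) else 0) =
        finProdFinEquiv (χ m, if m ∈ GoodFI a b i j t ((A' + 2) * t) X w y A B then (1 : Fin 2) else 0) →
        χ n = χ m ∧ (n ∈ GoodFI a b i j t ((A' + 2) * t) X w y A B ↔ m ∈ GoodFI a b i j t ((A' + 2) * t) X w y A B) := by
      intro n m he
      have he' := finProdFinEquiv.injective he
      rw [Prod.mk.injEq] at he'
      refine ⟨he'.1, ?_⟩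
      have he2 := he'.2
      split_ifs at he2 with h1 h2 h2
      · exact ⟨fun _ => h2, fun _ => h1⟩
      · exact absurd he2 (by decide)
      · exact absurd he2 (by decide)
      · exact ⟨fun hc => absurd hc h1, fun hc => absurd hc h2⟩
    refine ⟨P.filter (fun z => z.1 ∈ GoodFI a b i j t ((A' + 2) * t) X w y A B), ?_, ?_, ?_⟩
    · intro z hz
      rw [mem_filter] at hz
      obtain ⟨q1, q2, q3⟩ := p1 z hz.1
      refine ⟨q1, q2, fun l hl => ?_⟩
      obtain ⟨q4, q5⟩ := q3 l hl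
      obtain ⟨q6, q7⟩ := hcol _ _ q5
      exact ⟨q7.2 hz.2, q6⟩
    · exact p2.subset (by
        rw [coe_filter]
        exact fun z hz => hz.1)
    · refine le_trans ?_ p3
      have hsub : GoodFI a b i j t ((A' + 2) * t) X w y A B \ (P.filter (fun z => z.1 ∈ GoodFI a b i j t ((A' + 2) * t) X w y A B)).biUnion (apSet s) ⊆
          GoodF a b i j t ((A' + 2) * t) X A B \ P.biUnion (apSet s) := by
        intro n hn
        rw [Finset.mem_sdiff] at hn ⊢
        refine ⟨hGsub hn.1, fun hcon => hn.2 ?_⟩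
        rw [mem_biUnion] at hcon ⊢
        obtain ⟨z, hz, hnz⟩ := hcon
        refine ⟨z, ?_, hnz⟩
        rw [mem_filter]
        refine ⟨hz, ?_⟩
        unfold apSet at hnz
        rw [mem_image] at hnz
        obtain ⟨l, hl, rfl⟩ := hnz
        obtain ⟨_, q5⟩ := (p1 z hz).2.2 l (mem_range.1 hl)
        exact (hcol _ _ q5).2.1 hn.1
      exact_mod_cast card_le_card hsub


end Pool.Agent.T6.H2.FR
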