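import Pool.Agent.T6.H2.FR.Avg

/-!
# Systems of linear forms with far members: isolation (helper2)
-/

set_option autoImplicit false

namespace Pool.Agent.T6.H2.FR

open Finset Filter
open scoped Polynomial
open Pool.Agent.X32.Uni Pool.Agent.T6.H2.PT

variable {k : ℕ}

/-- **the pairs `(n, c)`** -/
theorem iso_far (k E : ℕ) (hk : 1 ≤ k) (β : ℝ) (hβ : 0 < β) :
    ∃ K₁ : ℝ, 0 < K₁ ∧ ∀ ε : ℝ, 0 < ε → ∀ K' : ℕ, ∃ X₀ : ℕ, ∀ X : ℕ, X₀ ≤ X →
      ∀ (a b : Fin k → ℤ) (u v : ℤ), (∀ l, a l ≠ 0) → (∀ l, |a l| ≤ E) → (∀ l, |b l| ≤ (X : ℤ) ^ K') →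
      u ≠ 0 → |u| ≤ E → |v| ≤ (X : ℤ) ^ K' → ∀ A B : ℕ, B ≤ X → (X : ℝ) ^ (1 / 2 : ℝ) ≤ (B : ℝ) - A →
        ∑ c ∈ (Icc (-((⌊ε * Real.log X⌋₊ : ℕ) : ℤ)) (⌊ε * Real.log X⌋₊ : ℕ)).filter
          (fun c => ∀ l, a l * (v + c) - u * b l ≠ 0),
          ((RL (Fin.cons u a : Fin (k + 1) → ℤ) (Fin.cons (v + c) b : Fin (k + 1) → ℤ) ((X : ℝ) ^ β) A B).card : ℝ) ≤
            K₁ * ε * ((B : ℝ) - A) * VL a b X := by
  classical
  obtain ⟨KU, hKU, n₀, H1⟩ := rough_lin (k + 1) E (by omega) (1 / 2) (by norm_num) β hβ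
  obtain ⟨Ka, hKa, H2⟩ := avg_far k E
  obtain ⟨X₁, H3⟩ := eventually_atTop.1 VL_cons'
  refine ⟨KU * 2 ^ E * (k * Ka), by positivity, fun ε hε K' => ?_⟩
  obtain ⟨X₂, H2⟩ := H2 ε hε (K' + 1)
  refine ⟨n₀ + X₁ + X₂ + 2 * E + 3, fun X hX a b u v ha haE hbK hu huE hvK A B hB hAB => ?_⟩
  have hlog : 0 < Real.log X := Real.log_pos (by exact_mod_cast (by omega : 1 < X))
  have hBA : 0 ≤ (B : ℝ) - A := le_trans (by positivity) hAB
  obtain ⟨w, hw⟩ : ∃ w : ℕ, w = ⌊ε * Real.log X⌋₊ := ⟨_, rfl⟩
  have hV0 := VL_nonneg a b X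
  -- the average of the singular series
  obtain ⟨S, hS⟩ : ∃ S : Finset ℤ, S = (Icc (-(w : ℤ)) w).filter (fun c => ∀ l, a l * (v + c) - u * b l ≠ 0) :=
    ⟨_, rfl⟩
  have hSl : ∀ c ∈ S, ∀ l, a l * (v + c) - u * b l ≠ 0 := by
    intro c hc
    rw [hS, mem_filter] at hc
    exact hc.2
  have hav : ∑ c ∈ S, gg (u * ∏ l, (a l * (v + c) - u * b l)) ≤ 2 ^ E * (k * Ka) * (ε * Real.log X) := by
    calc ∑ c ∈ S, gg (u * ∏ l, (a l * (v + c) - u * b l))
        ≤ ∑ c ∈ S, 2 ^ E * ∑ l, gg (a l * (v + c) - u * b l) ^ k := by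
          apply sum_le_sum
          intro c hc
          have h0 := hSl c hc
          refine (gg_mul_le u _ hu (prod_ne_zero_iff.2 fun l _ => h0 l)).trans ?_
          apply mul_le_mul (gg_small E u hu huE) _ (by have := one_le_gg (∏ l, (a l * (v + c) - u * b l)); linarith)
            (by positivity)
          refine (gg_prod_le _ h0).trans ?_
          exact prod_le_sum_pow hk _ fun l => by have := one_le_gg (a l * (v + c) - u * b l); linarith
      _ = 2 ^ E * ∑ l, ∑ c ∈ S, gg (a l * (v + c) - u * b l) ^ k := by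
          rw [← mul_sum, sum_comm]
      _ ≤ 2 ^ E * ∑ _l : Fin k, Ka * (ε * Real.log X) := by
          apply mul_le_mul_of_nonneg_left _ (by positivity)
          apply sum_le_sum
          intro l _
          have hb' : |a l * v - u * b l| ≤ (X : ℤ) ^ (K' + 1) := by
            have e1 : |a l * v| ≤ E * X ^ K' := by
              rw [abs_mul]
              exact mul_le_mul (haE l) hvK (abs_nonneg _) (by positivity)
            have e2 : |u * b l| ≤ E * X ^ K' := by
              rw [abs_mul]
              exact mul_le_mul huE (hbK l) (abs_nonneg _) (by positivity)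
            have e3 := abs_sub (a l * v) (u * b l)
            have e5 : (2 * E : ℤ) ≤ X := by exact_mod_cast (by omega : 2 * E ≤ X)
            calc |a l * v - u * b l| ≤ |a l * v| + |u * b l| := e3
              _ ≤ E * X ^ K' + E * X ^ K' := add_le_add e1 e2
              _ = (2 * E) * X ^ K' := by ring
              _ ≤ X * X ^ K' := mul_le_mul_of_nonneg_right e5 (by positivity)
              _ = X ^ (K' + 1) := by ring
          have e4 := H2 X (by omega) (a l) (a l * v - u * b l) (ha l) (haE l) hb'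
          rw [← hw] at e4
          refine le_trans ?_ e4
          calc ∑ c ∈ S, gg (a l * (v + c) - u * b l) ^ k
              = ∑ c ∈ S, gg (a l * c + (a l * v - u * b l)) ^ k := by
                apply sum_congr rfl
                intro c _
                congr 2
                ring
            _ ≤ _ := by
                apply sum_le_sum_of_subset_of_nonneg
                · intro c hc
                  have h0 := hSl c hc l
                  rw [hS, mem_filter] at hc
                  rw [mem_filter]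
                  refine ⟨hc.1, fun h5 => h0 ?_⟩
                  rw [← h5]
                  ring
                · intro c _ _
                  have := one_le_gg (a l * c + (a l * v - u * b l))
                  positivity
      _ = 2 ^ E * (k * Ka) * (ε * Real.log X) := by simp; ring
  rw [← hw, ← hS]
  calc ∑ c ∈ S, ((RL (Fin.cons u a : Fin (k + 1) → ℤ) (Fin.cons (v + c) b : Fin (k + 1) → ℤ) ((X : ℝ) ^ β) A B).card : ℝ)
      ≤ ∑ c ∈ S, KU * ((B : ℝ) - A) * (VL a b X * (1 / Real.log X) * gg (u * ∏ l, (a l * (v + c) - u * b l))) := by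
        apply sum_le_sum
        intro c hc
        refine (H1 X (by omega) _ _ ?_ ?_ A B hB hAB).trans ?_
        · intro l
          refine Fin.cases ?_ (fun l => ?_) l
          · rw [Fin.cons_zero]; exact hu
          · rw [Fin.cons_succ]; exact ha l
        · intro l
          refine Fin.cases ?_ (fun l => ?_) l
          · rw [Fin.cons_zero]; exact huE
          · rw [Fin.cons_succ]; exact haE l
        · apply mul_le_mul_of_nonneg_left _ (by positivity)
          exact H3 X (by omega) k a b u (v + c) hu (hSl c hc)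
    _ = KU * ((B : ℝ) - A) * (VL a b X * (1 / Real.log X)) * ∑ c ∈ S, gg (u * ∏ l, (a l * (v + c) - u * b l)) := by
        rw [mul_sum]
        apply sum_congr rfl
        intro c _
        ring
    _ ≤ KU * ((B : ℝ) - A) * (VL a b X * (1 / Real.log X)) * (2 ^ E * (k * Ka) * (ε * Real.log X)) := by
        apply mul_le_mul_of_nonneg_left hav (by positivity)
    _ = KU * 2 ^ E * (k * Ka) * ε * ((B : ℝ) - A) * VL a b X := by
        field_simp


end Pool.Agent.T6.H2.FR
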